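import Mathlib

/-!
# Exponential state complexity of edit-distance balls

For `x = 1 2 ... m` (distinct letters), radius `m` and one extra letter, every complete DFA
recognising the ball of radius `m` around `x` has at least `2 ^ m` states.
-/

namespace Pool.Agent.Results.MP_ecf776_lc.EditBallExp

/-- One single-symbol insertion, deletion or substitution. -/
inductive EditStep {α : Type} : List α → List α → Prop
  | ins (p s : List α) (a : α) : EditStep (p ++ s) (p ++ a :: s)
  | del (p s : List α) (a : α) : EditStep (p ++ a :: s) (p ++ s)
  | sub (p s : List α) (a b : α) : EditStep (p ++ a :: s) (p ++ b :: s)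

/-- `EditPath n u v`: the word `u` is transformed into `v` by a sequence of `n` edits. -/
inductive EditPath {α : Type} : ℕ → List α → List α → Prop
  | refl (u : List α) : EditPath 0 u u
  | tail {n : ℕ} {u v w : List α} : EditPath n u v → EditStep v w → EditPath (n + 1) u w

/-- The edit (Levenshtein) distance: the least number of edits that transform `u` into `v`. -/
noncomputable def editDist {α : Type} (u v : List α) : ℕ := sInf {n | EditPath n u v}

/-- The ball of radius `k` around the word `x`. -/
def ball {α : Type} (x : List α) (k : ℕ) : Language α := {w | editDist x w ≤ k}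

/-- The number of states of the minimal complete DFA recognising `L`: the least `n` such that
some complete DFA with `n` states recognises `L`. -/
noncomputable def sc {α : Type} (L : Language α) : ℕ :=
  sInf {n | ∃ M : DFA α (Fin n), M.accepts = L}

/-! ## Paths -/

section paths

variable {α : Type}

theorem EditStep.append {u v : List α} (h : EditStep u v) (p s : List α) :
    EditStep (p ++ u ++ s) (p ++ v ++ s) := by
  cases h with
  | ins q t a =>
    have := EditStep.ins (p ++ q) (t ++ s) a
    simpa [List.append_assoc] using this
  | del q t a =>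
    have := EditStep.del (p ++ q) (t ++ s) a
    simpa [List.append_assoc] using this
  | sub q t a b =>
    have := EditStep.sub (p ++ q) (t ++ s) a b
    simpa [List.append_assoc] using this

theorem EditPath.append {n : ℕ} {u v : List α} (h : EditPath n u v) (p s : List α) :
    EditPath n (p ++ u ++ s) (p ++ v ++ s) := by
  induction h with
  | refl u => exact EditPath.refl _
  | tail _ h2 ih => exact EditPath.tail ih (h2.append p s)

theorem EditPath.trans {n k : ℕ} {u v w : List α} (h : EditPath n u v) (h' : EditPath k v w) :
    EditPath (n + k) u w := by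
  induction h' with
  | refl u => exact h
  | tail _ h2 ih => exact EditPath.tail (ih h) h2

theorem EditPath.insert_all (w : List α) : EditPath w.length [] w := by
  induction w with
  | nil => exact EditPath.refl _
  | cons a w ih =>
    exact EditPath.tail ih (EditStep.ins [] w a)

theorem EditPath.delete_all (w : List α) : EditPath w.length w [] := by
  induction w with
  | nil => exact EditPath.refl _
  | cons a w ih =>
    have h1 : EditPath 1 (a :: w) w := EditPath.tail (EditPath.refl _) (EditStep.del [] w a)
    have := h1.trans ih
    rwa [add_comm] at this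

theorem exists_path (u v : List α) : ∃ n, EditPath n u v :=
  ⟨_, (EditPath.delete_all u).trans (EditPath.insert_all v)⟩

theorem path_editDist (u v : List α) : EditPath (editDist u v) u v :=
  Nat.sInf_mem (s := {n | EditPath n u v}) (exists_path u v)

theorem editDist_le {n : ℕ} {u v : List α} (h : EditPath n u v) : editDist u v ≤ n :=
  Nat.sInf_le h

theorem mem_ball {x w : List α} {k : ℕ} : w ∈ ball x k ↔ editDist x w ≤ k := Iff.rfl

/-- Substitutions. -/
theorem EditPath.map_map {ι : Type} (f g : ι → α) (q : ι → Bool)
    (hq : ∀ i, q i = false → f i = g i) (l : List ι) :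
    EditPath (l.countP q) (l.map f) (l.map g) := by
  induction l with
  | nil => exact EditPath.refl _
  | cons i l ih =>
    have h1 : EditPath (l.countP q) (f i :: l.map f) (f i :: l.map g) := by
      have := ih.append [f i] []
      simpa using this
    by_cases h : q i = true
    · rw [List.countP_cons_of_pos h]
      exact EditPath.tail h1 (EditStep.sub [] (l.map g) (f i) (g i))
    · rw [List.countP_cons_of_neg h]
      have : f i = g i := hq i (by simpa using h)
      simpa [this] using h1

theorem editStep_length {u v : List α} (h : EditStep u v) : v.length ≤ u.length + 1 := by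
  cases h <;> simp <;> omega

theorem editPath_length {n : ℕ} {u v : List α} (h : EditPath n u v) :
    v.length ≤ u.length + n := by
  induction h with
  | refl u => simp
  | tail _ h2 ih => have := editStep_length h2; omega

/-- Splitting an edit of a concatenation. -/
theorem step_split {w u v : List α} (h : EditStep w (u ++ v)) :
    (∃ u', w = u' ++ v ∧ EditStep u' u) ∨ (∃ v', w = u ++ v' ∧ EditStep v' v) := by
  generalize hz : u ++ v = z at h
  cases h with
  | ins p s a =>
    rcases List.append_eq_append_iff.1 hz with ⟨c, h1, h2⟩ | ⟨c, h1, h2⟩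
    · right
      refine ⟨c ++ s, by simp [h1], ?_⟩
      rw [h2]
      exact EditStep.ins c s a
    · cases c with
      | nil =>
        right
        refine ⟨s, by simp [h1], ?_⟩
        have : v = a :: s := by simpa using h2.symm
        rw [this]
        exact EditStep.ins [] s a
      | cons b c =>
        left
        simp only [List.cons_append, List.cons.injEq] at h2
        refine ⟨p ++ c, by simp [h2.2], ?_⟩
        rw [h1, ← h2.1]
        exact EditStep.ins p c a
  | del p s a =>
    rcases List.append_eq_append_iff.1 hz with ⟨c, h1, h2⟩ | ⟨c, h1, h2⟩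
    · right
      refine ⟨c ++ a :: s, by simp [h1], ?_⟩
      rw [h2]
      exact EditStep.del c s a
    · left
      refine ⟨p ++ a :: c, by simp [h2], ?_⟩
      rw [h1]
      exact EditStep.del p c a
  | sub p s a b =>
    rcases List.append_eq_append_iff.1 hz with ⟨c, h1, h2⟩ | ⟨c, h1, h2⟩
    · right
      refine ⟨c ++ a :: s, by simp [h1], ?_⟩
      rw [h2]
      exact EditStep.sub c s a b
    · cases c with
      | nil =>
        right
        refine ⟨a :: s, by simp [h1], ?_⟩
        have : v = b :: s := by simpa using h2.symm
        rw [this]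
        exact EditStep.sub [] s a b
      | cons b' c =>
        left
        simp only [List.cons_append, List.cons.injEq] at h2
        refine ⟨p ++ a :: c, by simp [h2.2], ?_⟩
        rw [h1, ← h2.1]
        exact EditStep.sub p c a b

theorem countP_step {u v : List α} (q : α → Bool) (h : EditStep u v) :
    v.countP q ≤ u.countP q + 1 := by
  cases h with
  | ins p s a => simp only [List.countP_append, List.countP_cons]; split_ifs <;> omega
  | del p s a => simp only [List.countP_append, List.countP_cons]; split_ifs <;> omega
  | sub p s a b => simp only [List.countP_append, List.countP_cons]; split_ifs <;> omega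

/-- The lower bound for the number of edits. -/
theorem path_lower [DecidableEq α] {n : ℕ} {x w : List α} (h : EditPath n x w) :
    ∀ u v : List α, w = u ++ v → ∃ i ≤ x.length,
      u.countP (fun a => decide (a ∉ x.take i)) + v.countP (fun a => decide (a ∉ x.drop i)) ≤ n := by
  induction h with
  | refl x =>
    intro u v huv
    refine ⟨u.length, by simp [huv], ?_⟩
    have h1 : x.take u.length = u := by simp [huv]
    have h2 : x.drop u.length = v := by simp [huv]
    rw [h1, h2]
    have h3 : u.countP (fun a => decide (a ∉ u)) = 0 := by
      rw [List.countP_eq_zero]; intro a ha; simp [ha]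
    have h4 : v.countP (fun a => decide (a ∉ v)) = 0 := by
      rw [List.countP_eq_zero]; intro a ha; simp [ha]
    omega
  | tail h1 h2 ih =>
    intro u v huv
    rw [huv] at h2
    rcases step_split h2 with ⟨u', hw, hs⟩ | ⟨v', hw, hs⟩
    · obtain ⟨i, hi, hle⟩ := ih u' v hw
      refine ⟨i, hi, ?_⟩
      refine le_trans (Nat.add_le_add (countP_step _ hs) le_rfl) ?_
      omega
    · obtain ⟨i, hi, hle⟩ := ih u v' hw
      refine ⟨i, hi, ?_⟩
      refine le_trans (Nat.add_le_add le_rfl (countP_step _ hs)) ?_
      omega

theorem path_lower' [DecidableEq α] {n : ℕ} {x u v : List α} (h : EditPath n x (u ++ v)) :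
    ∃ i ≤ x.length, ∃ q1 q2 : α → Bool, (∀ a, q1 a = true ↔ a ∉ x.take i) ∧
      (∀ a, q2 a = true ↔ a ∉ x.drop i) ∧ u.countP q1 + v.countP q2 ≤ n := by
  obtain ⟨i, hi, hle⟩ := path_lower h u v rfl
  exact ⟨i, hi, _, _, fun a => decide_eq_true_iff, fun a => decide_eq_true_iff, hle⟩

end paths

/-! ## Balls are regular -/

theorem ball_finite {α : Type} [Finite α] (x : List α) (k : ℕ) :
    (ball x k : Set (List α)).Finite := by
  refine (List.finite_length_le α (x.length + k)).subset ?_
  intro w hw
  have h1 : editDist x w ≤ k := hw
  have := editPath_length (path_editDist x w)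
  show w.length ≤ x.length + k
  omega

theorem finite_isRegular {α : Type} (L : Language α) (hL : (L : Set (List α)).Finite) :
    L.IsRegular := by
  rw [Language.isRegular_iff_finite_range_leftQuotient]
  have hfin : (⋃ w ∈ (L : Set (List α)), {u : List α | u ∈ w.inits}).Finite := by
    refine hL.biUnion ?_
    intro w _
    exact List.finite_toSet w.inits
  refine ((hfin.image L.leftQuotient).union (Set.finite_singleton (∅ : Set (List α)))).subset ?_
  rintro _ ⟨u, rfl⟩
  by_cases h : ∃ v, u ++ v ∈ L
  · left
    obtain ⟨v, hv⟩ := h
    refine ⟨u, ?_, rfl⟩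
    exact Set.mem_biUnion (x := u ++ v) hv (by
      show u ∈ (u ++ v).inits
      simp)
  · right
    push Not at h
    show L.leftQuotient u = (∅ : Set (List α))
    apply Set.eq_empty_of_forall_notMem
    intro v hv
    exact h v hv

theorem sc_mem {α : Type} (L : Language α) (h : L.IsRegular) :
    ∃ M : DFA α (Fin (sc L)), M.accepts = L := by
  have hne : {n | ∃ M : DFA α (Fin n), M.accepts = L}.Nonempty := by
    obtain ⟨σ, hσ, M, hM⟩ := h
    refine ⟨Fintype.card σ, M.reindex (Fintype.equivFin σ), ?_⟩
    simp [hM]
  exact Nat.sInf_mem hne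

/-! ## The words -/

section words

variable (m : ℕ)

/-- The centre: `m` distinct letters. -/
def ctr : List (Option (Fin m)) := (List.finRange m).map some

/-- `x` with the letters outside `S` replaced by the extra letter `none`. -/
def pre (S : Finset (Fin m)) : List (Option (Fin m)) :=
  (List.finRange m).map (fun i => if i ∈ S then some i else none)

theorem ctr_length : (ctr m).length = m := by simp [ctr]

theorem mem_take_ctr (i : ℕ) (a : Option (Fin m)) :
    a ∈ (ctr m).take i ↔ ∃ k : Fin m, k.val < i ∧ a = some k := by
  rw [List.mem_take_iff_getElem]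
  constructor
  · rintro ⟨j, hj, rfl⟩
    rw [ctr_length] at hj
    exact ⟨⟨j, by omega⟩, by simp; omega, by simp [ctr]⟩
  · rintro ⟨k, hk, rfl⟩
    exact ⟨k.val, by rw [ctr_length]; have := k.isLt; omega, by simp [ctr]⟩

theorem mem_drop_ctr (i : ℕ) (a : Option (Fin m)) :
    a ∈ (ctr m).drop i ↔ ∃ k : Fin m, i ≤ k.val ∧ a = some k := by
  rw [List.mem_drop_iff_getElem]
  constructor
  · rintro ⟨j, hj, rfl⟩
    rw [ctr_length] at hj
    exact ⟨⟨i + j, by omega⟩, by simp, by simp [ctr]⟩
  · rintro ⟨k, hk, rfl⟩
    refine ⟨k.val - i, by rw [ctr_length]; have := k.isLt; omega, ?_⟩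
    simp only [ctr, List.getElem_map, List.getElem_finRange]
    congr 1
    ext
    simp
    omega

theorem countP_finRange (q : Fin m → Bool) :
    (List.finRange m).countP q = (Finset.univ.filter (fun i => q i = true)).card := by
  rw [List.countP_eq_length_filter]
  have h : List.filter q (List.finRange m) =
      List.filter (fun i => decide (q i = true)) (List.finRange m) := by
    congr 1
    funext i
    simp
  rw [h]
  rfl

theorem countP_take_pre (S : Finset (Fin m)) (i : ℕ) (q : Option (Fin m) → Bool)
    (hq : ∀ a, q a = true ↔ a ∉ (ctr m).take i) :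
    (pre m S).countP q =
      (Finset.univ.filter (fun k : Fin m => ¬ (k ∈ S ∧ k.val < i))).card := by
  rw [pre, List.countP_map, countP_finRange]
  congr 1
  ext k
  simp only [Finset.mem_filter, Finset.mem_univ, true_and, Function.comp, hq,
    mem_take_ctr]
  by_cases h : k ∈ S
  · simp only [h, if_true, true_and, Option.some.injEq]
    constructor
    · intro h1 h2; exact h1 ⟨k, h2, rfl⟩
    · rintro h1 ⟨k', h2, rfl⟩; exact h1 h2
  · simp [h]

theorem drop_ctr_eq (j : ℕ) : (ctr m).drop j =
    ((List.finRange m).drop j).map some := by
  simp [ctr]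

/-- The distinguishing suffix. -/
def suf (t j : ℕ) : List (Option (Fin m)) := List.replicate (t + 1) none ++ (ctr m).drop (j + 1)

theorem countP_drop_ctr (i j : ℕ) (hi : i ≤ m) (q : Option (Fin m) → Bool)
    (hq : ∀ a, q a = true ↔ a ∉ (ctr m).drop i) :
    i ≤ j + ((ctr m).drop j).countP q := by
  by_cases hij : i ≤ j
  · omega
  · have h1 : (ctr m).drop j = ((ctr m).drop j).take (i - j) ++ (ctr m).drop i := by
      have h2 := List.take_append_drop (i - j) ((ctr m).drop j)
      rw [List.drop_drop] at h2
      have h3 : j + (i - j) = i := by omega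
      rw [h3] at h2
      exact h2.symm
    rw [h1, List.countP_append]
    have h4 : (((ctr m).drop j).take (i - j)).countP q =
        (((ctr m).drop j).take (i - j)).length := by
      rw [List.countP_eq_length]
      intro a ha
      rw [hq]
      intro h5
      rw [mem_drop_ctr] at h5
      obtain ⟨k, hk, rfl⟩ := h5
      rw [List.mem_take_iff_getElem] at ha
      obtain ⟨l, hl, hl2⟩ := ha
      simp only [ctr, List.getElem_drop, List.getElem_map, List.getElem_finRange,
        Option.some.injEq] at hl2
      rw [← hl2] at hk
      simp at hk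
      omega
    rw [h4, List.length_take, List.length_drop, ctr_length]
    omega

theorem countP_suf (t i j : ℕ) (hi : i ≤ m) (q : Option (Fin m) → Bool)
    (hq : ∀ a, q a = true ↔ a ∉ (ctr m).drop i) :
    t + 1 + i ≤ (j + 1) + (suf m t j).countP q ∧
    t + 1 ≤ (suf m t j).countP q := by
  rw [suf, List.countP_append]
  have h1 : (List.replicate (t + 1) (none : Option (Fin m))).countP q = t + 1 := by
    rw [List.countP_eq_length.2]
    · simp
    · intro a ha
      rw [List.eq_of_mem_replicate ha, hq]
      simp [mem_drop_ctr]
  have h2 := countP_drop_ctr m i (j + 1) hi q hq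
  rw [h1]
  omega

/-- The number of elements of `S` below `i`. -/
def cnt (S : Finset (Fin m)) (i : ℕ) : ℕ := (S.filter (fun k => k.val < i)).card

theorem card_lt (i : ℕ) (hi : i ≤ m) :
    (Finset.univ.filter (fun k : Fin m => k.val < i)).card = i := by
  have h : (Finset.univ.filter (fun k : Fin m => k.val < i)).map Fin.valEmbedding =
      Finset.range i := by
    ext a
    simp only [Finset.mem_map, Finset.mem_filter, Finset.mem_univ, true_and,
      Fin.valEmbedding_apply, Finset.mem_range]
    constructor
    · rintro ⟨k, hk, rfl⟩; exact hk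
    · intro ha; exact ⟨⟨a, by omega⟩, ha, rfl⟩
  rw [← Finset.card_map Fin.valEmbedding, h, Finset.card_range]

theorem upper (S : Finset (Fin m)) (j : Fin m) (t : ℕ) (ht : cnt m S (j.val + 1) = t + 1) :
    pre m S ++ suf m t j.val ∈ ball (ctr m) m := by
  rw [mem_ball]
  have hjm := j.isLt
  set g : Fin m → Option (Fin m) :=
    fun k => if k.val < j.val + 1 then (if k ∈ S then some k else none) else some k with hg
  have h1 := EditPath.map_map (fun k : Fin m => some k) g
    (fun k => decide (k.val < j.val + 1 ∧ k ∉ S)) (by
      intro k hk
      simp only [decide_eq_false_iff_not, not_and, not_not] at hk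
      simp only [hg]
      split_ifs with h1 h2
      · rfl
      · exact absurd (hk h1) h2
      · rfl) (List.finRange m)
  have hmid : (List.finRange m).map g = (pre m S).take (j.val + 1) ++ (ctr m).drop (j.val + 1) := by
    apply List.ext_getElem
    · simp [pre, ctr]
    · intro i h2 h3
      have him : i < m := by simpa using h2
      rw [List.getElem_append, List.getElem_map, List.getElem_finRange]
      split_ifs with h4
      · have h5 : i < j.val + 1 := by simp [pre] at h4; omega
        simp only [hg, pre, List.getElem_take, List.getElem_map, List.getElem_finRange]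
        exact if_pos h5
      · have h5 : ¬ i < j.val + 1 := by simp [pre] at h4; omega
        simp only [hg, ctr, List.getElem_drop, List.getElem_map, List.getElem_finRange]
        refine (if_neg h5).trans ?_
        congr 1
        ext
        simp [pre]
        omega
  rw [hmid] at h1
  have h2 := (EditPath.insert_all ((pre m S).drop (j.val + 1) ++
    List.replicate (t + 1) (none : Option (Fin m)))).append
      ((pre m S).take (j.val + 1)) ((ctr m).drop (j.val + 1))
  have h3 := h1.trans (by simpa using h2)
  have h4 : (pre m S).take (j.val + 1) ++ ((pre m S).drop (j.val + 1) ++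
      (List.replicate (t + 1) (none : Option (Fin m)) ++ (ctr m).drop (j.val + 1))) =
      pre m S ++ suf m t j.val := by
    rw [← List.append_assoc, List.take_append_drop]
    rfl
  rw [h4] at h3
  have h5 : m ≥ (List.finRange m).countP (fun k => decide (k.val < j.val + 1 ∧ k ∉ S)) +
      ((pre m S).length - (j.val + 1) + (t + 1)) := by
    rw [countP_finRange]
    have h6 : (Finset.univ.filter (fun k : Fin m =>
        decide (k.val < j.val + 1 ∧ k ∉ S) = true)).card + cnt m S (j.val + 1) = j.val + 1 := by
      rw [cnt, ← Finset.card_union_of_disjoint]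
      · conv_rhs => rw [← card_lt m (j.val + 1) (by omega)]
        congr 1
        ext k
        simp only [Finset.mem_union, Finset.mem_filter, Finset.mem_univ, true_and,
          decide_eq_true_eq]
        tauto
      · rw [Finset.disjoint_left]
        intro k hk hk2
        simp only [Finset.mem_filter, Finset.mem_univ, true_and, decide_eq_true_eq] at hk hk2
        exact hk.2 hk2.1
    simp only [pre, List.length_map, List.length_finRange]
    omega
  exact le_trans (editDist_le h3) h5

theorem lower (S : Finset (Fin m)) (j : ℕ) (t : ℕ) (ht : cnt m S (j + 1) = t) (hj : j < m) :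
    pre m S ++ suf m t j ∉ ball (ctr m) m := by
  rw [mem_ball, not_le]
  have h := path_lower' (path_editDist (ctr m) (pre m S ++ suf m t j))
  obtain ⟨i, hi, q1, q2, hq1, hq2, hle⟩ := h
  rw [ctr_length] at hi
  refine lt_of_lt_of_le ?_ hle
  rw [countP_take_pre m S i q1 hq1]
  have h1 := countP_suf m t i j hi q2 hq2
  have h2 : (Finset.univ.filter (fun k : Fin m => ¬ (k ∈ S ∧ k.val < i))).card + cnt m S i = m := by
    rw [cnt, ← Finset.card_union_of_disjoint]
    · conv_rhs => rw [← Fintype.card_fin m, ← Finset.card_univ]
      congr 1
      ext k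
      simp only [Finset.mem_union, Finset.mem_filter, Finset.mem_univ, true_and]
      tauto
    · rw [Finset.disjoint_left]
      intro k hk hk2
      simp only [Finset.mem_filter, Finset.mem_univ, true_and] at hk hk2
      exact hk hk2
  have h3 : cnt m S i ≤ t ∨ cnt m S i + (j + 1) ≤ t + i := by
    by_cases hij : i ≤ j + 1
    · left
      rw [← ht, cnt, cnt]
      apply Finset.card_le_card
      intro k hk
      simp only [Finset.mem_filter] at hk ⊢
      exact ⟨hk.1, by omega⟩
    · right
      have h4 : cnt m S i ≤ cnt m S (j + 1) +
          (Finset.univ.filter (fun k : Fin m => ¬ k.val < j + 1 ∧ k.val < i)).card := by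
        rw [cnt, cnt]
        refine le_trans (Finset.card_le_card ?_) (Finset.card_union_le _ _)
        intro k hk
        simp only [Finset.mem_union, Finset.mem_filter, Finset.mem_univ, true_and] at hk ⊢
        tauto
      have h6 := card_lt m (j + 1) (by omega)
      have h7 := card_lt m i hi
      have h8 : Disjoint (Finset.univ.filter (fun k : Fin m => ¬ k.val < j + 1 ∧ k.val < i))
          (Finset.univ.filter (fun k : Fin m => k.val < j + 1)) := by
        rw [Finset.disjoint_left]
        intro k hk hk2
        simp only [Finset.mem_filter, Finset.mem_univ, true_and] at hk hk2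
        exact hk.1 hk2
      have h9 : (Finset.univ.filter (fun k : Fin m => ¬ k.val < j + 1 ∧ k.val < i)) ∪
          (Finset.univ.filter (fun k : Fin m => k.val < j + 1)) =
          Finset.univ.filter (fun k : Fin m => k.val < i) := by
        ext k
        simp only [Finset.mem_union, Finset.mem_filter, Finset.mem_univ, true_and]
        omega
      have h10 := Finset.card_union_of_disjoint h8
      rw [h9] at h10
      omega
  omega

theorem separate (S S' : Finset (Fin m)) (j : Fin m) (hj : j ∈ S) (hj' : j ∉ S')
    (hlt : ∀ k : Fin m, k < j → (k ∈ S ↔ k ∈ S')) :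
    ∃ v, pre m S ++ v ∈ ball (ctr m) m ∧ pre m S' ++ v ∉ ball (ctr m) m := by
  refine ⟨suf m (cnt m S' (j.val + 1)) j.val, upper m S j _ ?_, lower m S' j.val _ rfl j.isLt⟩
  have h : S.filter (fun k => k.val < j.val + 1) =
      insert j (S'.filter (fun k => k.val < j.val + 1)) := by
    ext k
    simp only [Finset.mem_filter, Finset.mem_insert]
    constructor
    · rintro ⟨h1, h2⟩
      by_cases hkj : k = j
      · exact Or.inl hkj
      · have h3 : k.val ≠ j.val := fun h => hkj (Fin.ext h)
        have h4 : k < j := Fin.lt_def.2 (by omega)
        exact Or.inr ⟨(hlt k h4).1 h1, h2⟩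
    · rintro (rfl | ⟨h1, h2⟩)
      · exact ⟨hj, by omega⟩
      · have hkj : k ≠ j := fun h => hj' (h ▸ h1)
        have h3 : k.val ≠ j.val := fun h => hkj (Fin.ext h)
        have h4 : k < j := Fin.lt_def.2 (by omega)
        exact ⟨(hlt k h4).2 h1, h2⟩
  rw [cnt, h, Finset.card_insert_of_notMem (by simp [hj'])]
  rfl

theorem separate_ne (S S' : Finset (Fin m)) (hne : S ≠ S') :
    ∃ v, ¬ (pre m S ++ v ∈ ball (ctr m) m ↔ pre m S' ++ v ∈ ball (ctr m) m) := by
  have h1 : ∃ k : Fin m, ¬ (k ∈ S ↔ k ∈ S') := by
    by_contra h
    push Not at h
    exact hne (Finset.ext h)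
  obtain ⟨j, hj, hmin⟩ := WellFounded.has_min (wellFounded_lt (α := Fin m))
    {k : Fin m | ¬ (k ∈ S ↔ k ∈ S')} h1
  have hlt : ∀ k : Fin m, k < j → (k ∈ S ↔ k ∈ S') := by
    intro k hk
    by_contra h
    exact hmin k h hk
  have hj' : ¬ (j ∈ S ↔ j ∈ S') := hj
  by_cases hS : j ∈ S
  · have hS' : j ∉ S' := by tauto
    obtain ⟨v, h2, h3⟩ := separate m S S' j hS hS' hlt
    exact ⟨v, by tauto⟩
  · have hS' : j ∈ S' := by tauto
    obtain ⟨v, h2, h3⟩ := separate m S' S j hS' hS (fun k hk => (hlt k hk).symm)
    exact ⟨v, by tauto⟩

theorem sc_ge : 2 ^ m ≤ sc (ball (ctr m) m) := by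
  obtain ⟨M, hM⟩ := sc_mem (ball (ctr m) m) (finite_isRegular _ (ball_finite _ _))
  have hinj : Function.Injective (fun S : Finset (Fin m) => M.eval (pre m S)) := by
    intro S S' h
    by_contra hne
    obtain ⟨v, hv⟩ := separate_ne m S S' hne
    apply hv
    have h' : M.evalFrom M.start (pre m S) = M.evalFrom M.start (pre m S') := h
    rw [← hM, DFA.mem_accepts, DFA.mem_accepts]
    show M.evalFrom M.start _ ∈ _ ↔ M.evalFrom M.start _ ∈ _
    rw [DFA.evalFrom_of_append, DFA.evalFrom_of_append, h']
  have := Fintype.card_le_of_injective _ hinj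
  simpa using this

end words

/-- **Exponential state complexity of edit-distance balls.** -/
theorem result : ∃ c : ℝ, 0 < c ∧ ∀ N : ℕ, ∃ (A : Type) (_ : Fintype A) (x : List A) (k : ℕ),
    N ≤ min k x.length ∧ (ball x k).IsRegular ∧
      (2 : ℝ) ^ (c * (min k x.length : ℕ)) ≤ (sc (ball x k) : ℝ) := by
  refine ⟨1, one_pos, fun m => ⟨Option (Fin m), inferInstance, ctr m, m, ?_, ?_, ?_⟩⟩
  · simp [ctr_length]
  · exact finite_isRegular _ (ball_finite _ _)
  · rw [ctr_length, min_self, one_mul, Real.rpow_natCast]
    exact_mod_cast sc_ge m

end Pool.Agent.Results.MP_ecf776_lc.EditBallExp
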